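import Pool.Agent.U259.PK.Stp

/-!
# The projective form of Brauer's `k(B)` conjecture
-/

set_option autoImplicit false
set_option linter.unusedSectionVars false

open scoped Classical BigOperators

noncomputable section

namespace Pool.Agent.U259.PK

open Pool.Agent.Y63.NV (redC)
open Pool.Agent.Helper884.IC
open Pool.Agent.Q99.AS
open Pool.Agent.U259.DP

theorem growth {x P M : ℝ} (hP : 0 < P) (hM : 1 ≤ M)
    (h : ∀ ε : ℝ, 0 < ε → ∃ C : ℝ, ∀ n : ℕ, x ^ 2 ^ n ≤ C * (M ^ 2 ^ n) ^ ε * P ^ 2 ^ n) :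
    x ≤ P := by
  by_contra hlt
  push Not at hlt
  have hρ : 1 < x / P := (one_lt_div hP).2 hlt
  have hlog : 0 < Real.log (x / P) := Real.log_pos hρ
  have hlM : 0 ≤ Real.log M := Real.log_nonneg hM
  set ε : ℝ := Real.log (x / P) / (Real.log M + 1) with hε
  have hε0 : 0 < ε := div_pos hlog (by linarith)
  have hM0 : 0 < M := by linarith
  have h1 : M ^ ε < x / P := by
    rw [Real.rpow_def_of_pos hM0]
    have h2 : Real.log M * ε < Real.log (x / P) := by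
      have h3 : ε * (Real.log M + 1) = Real.log (x / P) := by
        rw [hε]
        exact div_mul_cancel₀ _ (by linarith)
      nlinarith
    calc Real.exp (Real.log M * ε) < Real.exp (Real.log (x / P)) := Real.exp_lt_exp.2 h2
      _ = x / P := Real.exp_log (by linarith)
  have hMε : 0 < M ^ ε := Real.rpow_pos_of_pos hM0 ε
  obtain ⟨C, hC⟩ := h ε hε0
  have hσ : 1 < x / P / M ^ ε := (one_lt_div hMε).2 h1
  obtain ⟨n, hn⟩ := ((tendsto_pow_atTop_atTop_of_one_lt hσ).eventually_gt_atTop C).exists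
  have h2 : (x / P / M ^ ε) ^ n ≤ (x / P / M ^ ε) ^ 2 ^ n :=
    pow_le_pow_right₀ hσ.le (Nat.lt_two_pow_self).le
  have h3 := hC n
  rw [← Real.rpow_pow_comm hM0.le] at h3
  have h4 : x ^ 2 ^ n = (x / P / M ^ ε) ^ 2 ^ n * ((M ^ ε) ^ 2 ^ n * P ^ 2 ^ n) := by
    rw [← mul_pow, ← mul_pow]
    congr 1
    field_simp
  rw [h4, mul_assoc] at h3
  have h5 : 0 < (M ^ ε) ^ 2 ^ n * P ^ 2 ^ n := by positivity
  have h6 := le_of_mul_le_mul_right h3 h5
  linarith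

variable {F : Type} [Field F] (red : integralClosure ℤ ℂ →+* F)

/-- the number of the characters in the block -/
def kB (p : ℕ) {G : Type} [Group G] (χ : G → ℂ) : ℕ :=
  Nat.card {ϑ : G → ℂ // IsIrrChar ϑ ∧ Sb red p χ ϑ}

theorem kO_le {p : ℕ} {G A : Type} [Group G] [Finite G] [Group A] (χ : G → ℂ) (ι : A →* G)
    (l : A → ℂ) : kO red p χ ι l ≤ kB red p χ := by
  have _i := fin_irr (G := G) (fun ϑ => Sb red p χ ϑ)
  unfold kO kB
  exact Nat.card_le_card_of_injective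
    (fun x : {ϑ : G → ℂ // IsIrrChar ϑ ∧ Sb red p χ ϑ ∧ ∀ a, ϑ (ι a) = ϑ 1 * l a} =>
      (⟨x.1, x.2.1, x.2.2.1⟩ : {ϑ : G → ℂ // IsIrrChar ϑ ∧ Sb red p χ ϑ}))
    (fun x y h => by
      have h1 := congrArg Subtype.val h
      exact Subtype.ext h1)

/-- the situation -/
def Pk (X : ∀ (G : Type) [Group G], Prop) (p : ℕ) {A : Type} [Group A] (l : A → ℂ) (a : ℕ)
    (c : ℤ) (x M : ℕ) : Prop :=
  ∃ (G : Type) (_ : Group G) (_ : Finite G), X G ∧ Nat.card G ≤ M ∧ ∃ ι : A →* G,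
    Function.Injective ι ∧ ι.range ≤ Subgroup.center G ∧ ∃ (χ : G → ℂ) (d : ℕ), IsIrrChar χ ∧
      Df red p χ d ∧ (d : ℤ) = a + c ∧ x ≤ kO red p χ ι l

variable {p : ℕ} [hp : Fact p.Prime] [CharP F p] {X : ∀ (G : Type) [Group G], Prop}
  (hX : ∀ (G : Type) [Group G] [Finite G], X G → ∀ (K : Subgroup G) [K.Normal],
      K ≤ Subgroup.center G → IsPGroup p K → X (G ⧸ K))
  (hX2 : ∀ (G : Type) [Group G] [Finite G], X G → X (G × G))
  {A : Type} [Group A] [Finite A] (hA : IsPGroup p A) {l : A → ℂ}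
  (hl : l 1 = 1) (hm : ∀ x y, l (x * y) = l x * l y) {a : ℕ} (ha : Nat.card A = p ^ a)

include hX hX2 hA hl hm ha

theorem pk_step {c : ℤ} {x M : ℕ} (h : Pk red X p l a c x M) :
    Pk red X p l a (2 * c) (x ^ 2) (M ^ 2) := by
  obtain ⟨G, i1, i2, hG, hM, ι, hι, hc, χ, d, hχ, hd, e, hx⟩ := h
  have _n := adg_normal hc
  have hO : IsPGroup p ι.range := hA.of_surjective ι.rangeRestrict ι.rangeRestrict_surjective
  obtain ⟨χ', d', h1, h2, h3, h4⟩ := step red ι hι hc hA hχ ha hl hm hd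
  refine ⟨(G × G) ⧸ adg hc, inferInstance, inferInstance,
    hX (G × G) (hX2 G hG) (adg hc) (adg_center hc) (adg_p hc hO), ?_, iW ι hc, iW_inj ι hι hc,
    iW_cen ι hc, χ', d', h1, h2, by omega, (Nat.pow_le_pow_left hx 2).trans h4⟩
  have h5 : Nat.card ((G × G) ⧸ adg hc) ≤ Nat.card (G × G) :=
    Nat.card_le_card_of_surjective _ (QuotientGroup.mk'_surjective (adg hc))
  rw [Nat.card_prod] at h5
  refine h5.trans ?_
  rw [pow_two]
  exact Nat.mul_le_mul hM hM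

theorem pk_iter {c : ℤ} {x M : ℕ} (h : Pk red X p l a c x M) (n : ℕ) :
    Pk red X p l a (2 ^ n * c) (x ^ 2 ^ n) (M ^ 2 ^ n) := by
  induction n with
  | zero => simpa using h
  | succ n ih =>
    have h1 := pk_step red hX hX2 hA hl hm ha ih
    rw [← pow_mul, ← pow_mul, ← pow_succ, ← mul_assoc, ← pow_succ'] at h1
    exact h1

/-- **The projective form** -/
theorem proj (hw : ∀ ε : ℝ, 0 < ε → ∃ C : ℝ, ∀ (G : Type) [Group G] [Finite G], X G →
      ∀ (χ : G → ℂ) (d : ℕ), IsIrrChar χ → Df red p χ d →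
        (kB red p χ : ℝ) ≤ C * (Nat.card G : ℝ) ^ ε * (p : ℝ) ^ d)
    {G : Type} [Group G] [Finite G] (hG : X G) (ι : A →* G) (hι : Function.Injective ι)
    (hc : ι.range ≤ Subgroup.center G) {χ : G → ℂ} {d : ℕ} (hχ : IsIrrChar χ)
    (hd : Df red p χ d) : p ^ a * kO red p χ ι l ≤ p ^ d := by
  have hp0 : (0 : ℝ) < p := by exact_mod_cast hp.out.pos
  have h0 : Pk red X p l a ((d : ℤ) - a) (kO red p χ ι l) (Nat.card G) :=
    ⟨G, inferInstance, inferInstance, hG, le_rfl, ι, hι, hc, χ, d, hχ, hd, by ring, le_rfl⟩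
  have key : (kO red p χ ι l : ℝ) ≤ (p : ℝ) ^ ((d : ℤ) - a) := by
    refine growth (M := (Nat.card G : ℝ)) (zpow_pos hp0 _)
      (by exact_mod_cast Nat.card_pos (α := G)) fun ε hε => ?_
    obtain ⟨C, hC⟩ := hw ε hε
    have hC0 : 0 ≤ C := by
      have h1 := hC G hG χ d hχ hd
      have h2 : (0 : ℝ) ≤ kB red p χ := Nat.cast_nonneg _
      have h3 : 0 < (Nat.card G : ℝ) ^ ε * (p : ℝ) ^ d :=
        mul_pos (Real.rpow_pos_of_pos (by exact_mod_cast Nat.card_pos) _) (pow_pos hp0 _)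
      by_contra hneg
      push Not at hneg
      have h4 : C * (Nat.card G : ℝ) ^ ε * (p : ℝ) ^ d < 0 := by
        rw [mul_assoc]
        exact mul_neg_of_neg_of_pos hneg h3
      linarith
    refine ⟨C * (p : ℝ) ^ a, fun n => ?_⟩
    obtain ⟨G', i1, i2, hG', hM, ι', hι', hc', χ', d', hχ', hd', e, hx⟩ :=
      pk_iter red hX hX2 hA hl hm ha h0 n
    have h1 := hC G' hG' χ' d' hχ' hd'
    have h2 : ((kO red p χ ι l ^ 2 ^ n : ℕ) : ℝ) ≤ kB red p χ' := by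
      exact_mod_cast hx.trans (kO_le red χ' ι' l)
    have h3 : (p : ℝ) ^ d' = (p : ℝ) ^ a * ((p : ℝ) ^ ((d : ℤ) - a)) ^ 2 ^ n := by
      rw [← zpow_natCast (p : ℝ) d', e, zpow_add₀ hp0.ne', zpow_natCast, mul_comm ((2 : ℤ) ^ n),
        zpow_mul]
      congr 1
    have h4 : (Nat.card G' : ℝ) ^ ε ≤ ((Nat.card G : ℝ) ^ 2 ^ n) ^ ε := by
      refine Real.rpow_le_rpow (Nat.cast_nonneg _) ?_ hε.le
      exact_mod_cast hM
    have h5 : (0 : ℝ) ≤ (p : ℝ) ^ d' := (pow_pos hp0 _).le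
    push_cast at h2
    calc (kO red p χ ι l : ℝ) ^ 2 ^ n ≤ kB red p χ' := h2
      _ ≤ C * (Nat.card G' : ℝ) ^ ε * (p : ℝ) ^ d' := h1
      _ ≤ C * ((Nat.card G : ℝ) ^ 2 ^ n) ^ ε * (p : ℝ) ^ d' :=
        mul_le_mul_of_nonneg_right (mul_le_mul_of_nonneg_left h4 hC0) h5
      _ = C * (p : ℝ) ^ a * ((Nat.card G : ℝ) ^ 2 ^ n) ^ ε *
          ((p : ℝ) ^ ((d : ℤ) - a)) ^ 2 ^ n := by
        rw [h3]
        ring
  have h1 : ((p : ℝ) ^ a) * kO red p χ ι l ≤ (p : ℝ) ^ d := by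
    have h2 : (p : ℝ) ^ d = (p : ℝ) ^ a * (p : ℝ) ^ ((d : ℤ) - a) := by
      rw [← zpow_natCast (p : ℝ) a, ← zpow_add₀ hp0.ne', ← zpow_natCast (p : ℝ) d]
      congr 1
      ring
    rw [h2]
    exact mul_le_mul_of_nonneg_left key (pow_pos hp0 _).le
  exact_mod_cast h1

end Pool.Agent.U259.PK
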