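import Pool.Agent.U259.DP.Sqr

/-!
# Numbers of characters of a block over a central character: central squares
-/

set_option autoImplicit false
set_option linter.unusedSectionVars false

open scoped Classical BigOperators

noncomputable section

namespace Pool.Agent.U259.PK

open Pool.Agent.Y63.NV (redC)
open Pool.Agent.Helper884.IC
open Pool.Agent.Q99.AS
open Pool.Agent.U259.DP

variable {F : Type} [Field F] (red : integralClosure ℤ ℂ →+* F)

section defs

variable {G : Type} [Group G]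

/-- `ϑ` is in the block of `χ` -/
def Sb (p : ℕ) (χ ϑ : G → ℂ) : Prop :=
  ∀ g : G, ¬ p ∣ orderOf g → lam red (MonoidHom.id G) ϑ g = lam red (MonoidHom.id G) χ g

/-- the block of `χ` has defect `d` -/
def Df (p : ℕ) (χ : G → ℂ) (d : ℕ) : Prop :=
  (∃ ϑ : G → ℂ, IsIrrChar ϑ ∧ Sb red p χ ϑ ∧ ∃ n : ℕ, ϑ 1 = n ∧
    n.factorization p + d = (Nat.card G).factorization p) ∧
  ∀ ϑ : G → ℂ, IsIrrChar ϑ → Sb red p χ ϑ → ∀ n : ℕ, ϑ 1 = n →
    (Nat.card G).factorization p ≤ n.factorization p + d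

/-- the number of the characters over `l` -/
def kO (p : ℕ) (χ : G → ℂ) {A : Type} [Group A] (ι : A →* G) (l : A → ℂ) : ℕ :=
  Nat.card {ϑ : G → ℂ // IsIrrChar ϑ ∧ Sb red p χ ϑ ∧ ∀ a, ϑ (ι a) = ϑ 1 * l a}

theorem fin_irr [Finite G] (P : (G → ℂ) → Prop) : Finite {ϑ : G → ℂ // IsIrrChar ϑ ∧ P ϑ} := by
  have := Fintype.ofFinite G
  exact ((Irr G).finite_toSet.subset fun ϑ h => mem_Irr.2 h.1).to_subtype

end defs

section ten

variable {G : Type} [Group G] [Finite G]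

theorem sb_ten {p : ℕ} {χ θ₁ θ₂ : G → ℂ} (hχ : IsIrrChar χ) (h1 : IsIrrChar θ₁)
    (h2 : IsIrrChar θ₂) :
    Sb red p (ten χ χ) (ten θ₁ θ₂) ↔ Sb red p χ θ₁ ∧ Sb red p χ θ₂ := by
  have := Fintype.ofFinite G
  have e2 : ∀ {θ ψ : G → ℂ}, IsIrrChar θ → IsIrrChar ψ → ∀ (g g' : G),
      lam red (MonoidHom.id (G × G)) (ten θ ψ) (g, g') =
      lam red (MonoidHom.id G) θ g * lam red (MonoidHom.id G) ψ g' := by
    intro θ ψ hθ hψ g g'
    exact lam_ten red hθ hψ (MonoidHom.id G) (MonoidHom.id G) g g'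
  have i1 := lam_one red (irr_one_ne' h1) (φ := MonoidHom.id G) Function.injective_id
  have i2 := lam_one red (irr_one_ne' h2) (φ := MonoidHom.id G) Function.injective_id
  have i3 := lam_one red (irr_one_ne' hχ) (φ := MonoidHom.id G) Function.injective_id
  constructor
  · intro h
    refine ⟨fun g hg => ?_, fun g' hg' => ?_⟩
    · have := h (g, 1) (by rw [Prod.orderOf, orderOf_one, Nat.lcm_one_right]; exact hg)
      rwa [e2 h1 h2, e2 hχ hχ, i2, i3, mul_one, mul_one] at this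
    · have := h (1, g') (by rw [Prod.orderOf, orderOf_one, Nat.lcm_one_left]; exact hg')
      rwa [e2 h1 h2, e2 hχ hχ, i1, i3, one_mul, one_mul] at this
  · rintro ⟨h, h'⟩ ⟨g, g'⟩ hg
    rw [Prod.orderOf] at hg
    rw [e2 h1 h2, e2 hχ hχ, h g fun h => hg (h.trans (Nat.dvd_lcm_left _ _)),
      h' g' fun h => hg (h.trans (Nat.dvd_lcm_right _ _))]

end ten

section step

variable {G A : Type} [Group G] [Finite G] [Group A] [Finite A] {p : ℕ} [hp : Fact p.Prime]
  [CharP F p] (ι : A →* G) (hι : Function.Injective ι) (hc : ι.range ≤ Subgroup.center G)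
  (hA : IsPGroup p A)

/-- characters of the central square -/
theorem desc [Fintype G] {θ₁ θ₂ : G → ℂ} (h1 : IsIrrChar θ₁) (h2 : IsIrrChar θ₂)
    (hz : ∀ a, θ₁ (ι a) * θ₂ (ι a)⁻¹ = θ₁ 1 * θ₂ 1) :
    letI := adg_normal hc
    ∃ ψ : (G × G) ⧸ adg hc → ℂ, IsIrrChar ψ ∧
      ∀ x, ten θ₁ θ₂ x = ψ (QuotientGroup.mk' (adg hc) x) := by
  have _n := adg_normal hc
  have hπ : Function.Surjective (QuotientGroup.mk' (adg hc)) := QuotientGroup.mk'_surjective _
  have h12 := ten_irr h1 h2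
  refine descend (QuotientGroup.mk' (adg hc)) hπ h12 fun z hz' x => ?_
  rw [QuotientGroup.ker_mk'] at hz'
  have h5 := central h12 (z := z) (fun x => Subgroup.mem_center_iff.1 (adg_center hc hz') x) x
  have h6 : ten θ₁ θ₂ z = ten θ₁ θ₂ 1 := by
    obtain ⟨z1, z2⟩ := z
    obtain ⟨⟨a, ha⟩, h7⟩ := hz'
    change z2 = z1⁻¹ at h7
    change ι a = z1 at ha
    subst h7
    subst ha
    exact hz a
  rw [h6, mul_comm] at h5
  exact mul_left_cancel₀ (irr_one_ne' h12) h5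

/-- the embedding in the central square -/
def iW : letI := adg_normal hc; A →* (G × G) ⧸ adg hc :=
  letI := adg_normal hc
  (QuotientGroup.mk' (adg hc)).comp ((MonoidHom.inl G G).comp ι)

include hι in
omit [Finite G] [Finite A] in
theorem iW_inj : Function.Injective (iW ι hc) := by
  have _n := adg_normal hc
  rw [injective_iff_map_eq_one]
  intro a ha
  have h1 : (QuotientGroup.mk' (adg hc)) (ι a, 1) = 1 := ha
  rw [← MonoidHom.mem_ker, QuotientGroup.ker_mk'] at h1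
  obtain ⟨-, h2⟩ := h1
  change (1 : G) = (ι a)⁻¹ at h2
  have h3 : ι a = 1 := by rw [← inv_inv (ι a), ← h2, inv_one]
  exact hι (h3.trans (map_one ι).symm)

omit [Finite G] [Finite A] in
theorem iW_cen : letI := adg_normal hc
    (iW ι hc).range ≤ Subgroup.center ((G × G) ⧸ adg hc) := by
  have _n := adg_normal hc
  rintro _ ⟨a, rfl⟩
  rw [Subgroup.mem_center_iff]
  intro y
  obtain ⟨y, rfl⟩ := QuotientGroup.mk'_surjective _ y
  change _ * QuotientGroup.mk' (adg hc) (ι a, 1) = QuotientGroup.mk' (adg hc) (ι a, 1) * _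
  rw [← map_mul, ← map_mul]
  congr 1
  obtain ⟨y1, y2⟩ := y
  have h1 := Subgroup.mem_center_iff.1 (hc ⟨a, rfl⟩) y1
  rw [Prod.mk_mul_mk, Prod.mk_mul_mk, h1, mul_one, one_mul]

include hι hA in
/-- **the central square** -/
theorem step {χ : G → ℂ} (hχ : IsIrrChar χ) {a : ℕ} (ha : Nat.card A = p ^ a) {l : A → ℂ}
    (hl : l 1 = 1) (hm : ∀ x y, l (x * y) = l x * l y) {d : ℕ} (hd : Df red p χ d) :
    letI := adg_normal hc
    ∃ (χ' : (G × G) ⧸ adg hc → ℂ) (d' : ℕ), IsIrrChar χ' ∧ Df red p χ' d' ∧ 2 * d = d' + a ∧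
      kO red p χ ι l ^ 2 ≤ kO red p χ' (iW ι hc) l := by
  have _n := adg_normal hc
  have _f : Fintype G := Fintype.ofFinite G
  have _fW : Fintype ((G × G) ⧸ adg hc) := Fintype.ofFinite _
  have hO : IsPGroup p ι.range := hA.of_surjective ι.rangeRestrict ι.rangeRestrict_surjective
  have hπ : Function.Surjective (QuotientGroup.mk' (adg hc)) := QuotientGroup.mk'_surjective _
  have hker : (QuotientGroup.mk' (adg hc)).ker = adg hc := QuotientGroup.ker_mk' _
  have hkp : IsPGroup p (QuotientGroup.mk' (adg hc)).ker := by rw [hker]; exact adg_p hc hO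
  have hkc : (QuotientGroup.mk' (adg hc)).ker ≤ Subgroup.center (G × G) := by
    rw [hker]; exact adg_center hc
  obtain ⟨χ', g1, g2⟩ := dom hπ hkp hkc red (ten_irr hχ hχ)
  -- blocks of the central square
  have hsb : ∀ ψ : (G × G) ⧸ adg hc → ℂ, Sb red p χ' ψ ↔
      Sb red p (ten χ χ) (fun x => ψ (QuotientGroup.mk' (adg hc) x)) := by
    intro ψ
    constructor
    · intro h g hg
      rw [lam_inf_id hπ hkp hkc red ψ hg, ← g2 g hg]
      exact h _ (reg_map hg)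
    · intro h y hy
      obtain ⟨g, rfl, hg⟩ := reg_lift hπ hy
      rw [← lam_inf_id hπ hkp hkc red ψ hg, g2 g hg]
      exact h g hg
  -- the order of the central square
  have hcard : (Nat.card ((G × G) ⧸ adg hc)).factorization p + a =
      2 * (Nat.card G).factorization p := by
    have h1 := Subgroup.card_eq_card_quotient_mul_card_subgroup (adg hc)
    have h2 : Nat.card ι.range = Nat.card A :=
      (Nat.card_congr (MonoidHom.ofInjective hι).toEquiv).symm
    rw [adg_card hc, h2, ha, Nat.card_prod] at h1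
    have h3 := congrArg (fun n => n.factorization p) h1
    beta_reduce at h3
    rw [Nat.factorization_mul Nat.card_pos.ne' Nat.card_pos.ne',
      Nat.factorization_mul Nat.card_pos.ne' (pow_ne_zero a hp.out.ne_zero),
      Nat.factorization_pow, Finsupp.add_apply, Finsupp.add_apply, Finsupp.smul_apply,
      hp.out.factorization_self, smul_eq_mul, mul_one] at h3
    omega
  have hprod : ∀ {n m : ℕ} {θ ψ : G → ℂ}, IsIrrChar θ → IsIrrChar ψ → θ 1 = n → ψ 1 = m →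
      (n * m).factorization p = n.factorization p + m.factorization p := by
    intro n m θ ψ h1 h2 h3 h4
    have n0 : n ≠ 0 := by
      rintro rfl
      exact irr_one_ne' h1 (by rw [h3]; simp)
    have m0 : m ≠ 0 := by
      rintro rfl
      exact irr_one_ne' h2 (by rw [h4]; simp)
    rw [Nat.factorization_mul n0 m0]
    rfl
  -- a character of smallest height
  obtain ⟨⟨ϑ, t1, t2, n, t3, t4⟩, hmin⟩ := hd
  obtain ⟨ψ, s1, s2⟩ := desc ι hc t1 t1 fun b => by
    have h1 := central t1 (z := ι b) (fun x => Subgroup.mem_center_iff.1 (hc ⟨b, rfl⟩) x) (ι b)⁻¹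
    rw [mul_inv_cancel] at h1
    exact h1.symm
  have s3 : ψ 1 = ((n * n : ℕ) : ℂ) := by
    have h1 := s2 1
    rw [map_one] at h1
    rw [← h1]
    change ϑ 1 * ϑ 1 = _
    rw [t3]
    push_cast
    rfl
  have s4 : (n * n).factorization p ≤ (Nat.card ((G × G) ⧸ adg hc)).factorization p := by
    obtain ⟨e, he⟩ := Dft_exists p s1
    obtain ⟨m, hm1, hm2⟩ := he
    rw [s3] at hm1
    have : n * n = m := by exact_mod_cast hm1
    rw [this]
    omega
  rw [hprod t1 t1 t3 t3] at s4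
  have hda : a ≤ 2 * d := by omega
  refine ⟨χ', 2 * d - a, g1, ⟨⟨ψ, s1, ?_, n * n, s3, ?_⟩, ?_⟩, by omega, ?_⟩
  · rw [hsb]
    have h1 : (fun x => ψ (QuotientGroup.mk' (adg hc) x)) = ten ϑ ϑ := (funext s2).symm
    rw [h1, sb_ten red hχ t1 t1]
    exact ⟨t2, t2⟩
  · rw [hprod t1 t1 t3 t3]
    omega
  · intro ψ' u1 u2 m u3
    rw [hsb] at u2
    have h1 : IsIrrChar (fun x => ψ' (QuotientGroup.mk' (adg hc) x)) :=
      Pool.Agent.N19.RB.irr_surj _ hπ u1
    obtain ⟨θ₁, θ₂, v1, v2, v3⟩ := ten_cover h1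
    rw [v3, sb_ten red hχ v1 v2] at u2
    obtain ⟨n₁, -, w1⟩ := Pool.Agent.Q90.WR.deg_pos v1
    obtain ⟨n₂, -, w2⟩ := Pool.Agent.Q90.WR.deg_pos v2
    have h2 : (m : ℂ) = ((n₁ * n₂ : ℕ) : ℂ) := by
      have h3 := congrFun v3 1
      rw [map_one] at h3
      rw [← u3, h3]
      change θ₁ 1 * θ₂ 1 = _
      rw [w1, w2]
      push_cast
      rfl
    have h3 : m = n₁ * n₂ := by exact_mod_cast h2
    rw [h3, hprod v1 v2 w1 w2]
    have h4 := hmin θ₁ v1 u2.1 n₁ w1
    have h5 := hmin θ₂ v2 u2.2 n₂ w2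
    omega
  -- the number
  · unfold kO
    have hex : ∀ x : {ϑ : G → ℂ // IsIrrChar ϑ ∧ Sb red p χ ϑ ∧ ∀ a, ϑ (ι a) = ϑ 1 * l a} ×
        {ϑ : G → ℂ // IsIrrChar ϑ ∧ Sb red p χ ϑ ∧ ∀ a, ϑ (ι a) = ϑ 1 * l a},
        ∃ ψ : (G × G) ⧸ adg hc → ℂ, IsIrrChar ψ ∧
          ∀ y, ten x.1.1 x.2.1 y = ψ (QuotientGroup.mk' (adg hc) y) := by
      rintro ⟨⟨θ₁, v1, v2, v3⟩, ⟨θ₂, w1, w2, w3⟩⟩
      refine desc ι hc v1 w1 fun b => ?_
      change θ₁ (ι b) * θ₂ (ι b)⁻¹ = _
      rw [← map_inv, v3, w3]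
      have h1 : l b * l b⁻¹ = 1 := by rw [← hm, mul_inv_cancel, hl]
      linear_combination θ₁ 1 * θ₂ 1 * h1
    choose f f1 f2 using hex
    have _i := fin_irr (G := (G × G) ⧸ adg hc)
      (fun ψ => Sb red p χ' ψ ∧ ∀ a, ψ (iW ι hc a) = ψ 1 * l a)
    have h0 : ∀ x, Sb red p χ' (f x) ∧ ∀ a, f x (iW ι hc a) = f x 1 * l a := by
      rintro x
      have e1 : ∀ y, f x (QuotientGroup.mk' (adg hc) y) = ten x.1.1 x.2.1 y := fun y => (f2 x y).symm
      refine ⟨?_, fun b => ?_⟩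
      · rw [hsb]
        have h1 : (fun y => f x (QuotientGroup.mk' (adg hc) y)) = ten x.1.1 x.2.1 := funext e1
        rw [h1, sb_ten red hχ x.1.2.1 x.2.2.1]
        exact ⟨x.1.2.2.1, x.2.2.2.1⟩
      · have h1 : f x (iW ι hc b) = ten x.1.1 x.2.1 (ι b, 1) := e1 _
        have h2 : f x 1 = ten x.1.1 x.2.1 1 := by
          rw [← e1, map_one]
        rw [h1, h2]
        change x.1.1 (ι b) * x.2.1 1 = x.1.1 1 * x.2.1 1 * l b
        rw [x.1.2.2.2 b]
        ring
    have h3 := Nat.card_le_card_of_injective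
      (fun x : {ϑ : G → ℂ // IsIrrChar ϑ ∧ Sb red p χ ϑ ∧ ∀ a, ϑ (ι a) = ϑ 1 * l a} ×
        {ϑ : G → ℂ // IsIrrChar ϑ ∧ Sb red p χ ϑ ∧ ∀ a, ϑ (ι a) = ϑ 1 * l a} =>
        (⟨f x, f1 x, h0 x⟩ : {ψ : (G × G) ⧸ adg hc → ℂ // IsIrrChar ψ ∧ Sb red p χ' ψ ∧
          ∀ a, ψ (iW ι hc a) = ψ 1 * l a})) (fun x y hxy => by
        have h1 : f x = f y := congrArg Subtype.val hxy
        have h2 : ten x.1.1 x.2.1 = ten y.1.1 y.2.1 := by
          funext z
          rw [f2 x z, f2 y z, h1]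
        obtain ⟨h4, h5⟩ := ten_inj x.1.2.1 x.2.2.1 y.1.2.1 y.2.2.1 h2
        exact Prod.ext (Subtype.ext h4) (Subtype.ext h5))
    rw [Nat.card_prod, ← pow_two] at h3
    exact h3

end step

end Pool.Agent.U259.PK
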